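import Mathlib

set_option autoImplicit false

namespace Pool.Agent.Results.MP_2fc053_co.ShiftVeto

/-- `G` is a veto interval graph: there are pairwise distinct veto intervals
`l a < v a < r a` such that distinct vertices `a, b` are adjacent iff
`v a < l b < r a < v b` or `v b < l a < r b < v a`. -/
def IsVI {V : Type} (G : SimpleGraph V) : Prop :=
  ∃ l v r : V → ℝ, (∀ a, l a < v a ∧ v a < r a) ∧
    Function.Injective (fun a => (l a, v a, r a)) ∧
    ∀ a b, a ≠ b → (G.Adj a b ↔
      (v a < l b ∧ l b < r a ∧ r a < v b) ∨ (v b < l a ∧ l a < r b ∧ r b < v a))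

/-- vertices of the shift graph -/
abbrev SV (N : ℕ) : Type := {p : Fin N × Fin N // p.1 < p.2}

/-- the shift graph -/
def shift (N : ℕ) : SimpleGraph (SV N) where
  Adj p q := p.1.2 = q.1.1 ∨ q.1.2 = p.1.1
  symm := ⟨fun p q h => h.symm⟩
  loopless := ⟨fun p h => by
    rcases h with h | h
    · exact absurd h.symm (ne_of_lt p.2)
    · exact absurd h.symm (ne_of_lt p.2)⟩

lemma nat_close {i j : ℕ} (h1 : (i : ℝ) - 1/4 < j) (h2 : (j : ℝ) < i + 1/4) : j = i := by
  rcases Nat.lt_trichotomy i j with h | h | h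
  · have : (i : ℝ) + 1 ≤ j := by exact_mod_cast h
    linarith
  · exact h.symm
  · have : (j : ℝ) + 1 ≤ i := by exact_mod_cast h
    linarith

lemma shift_isVI (N : ℕ) : IsVI (shift N) := by
  refine ⟨fun p => (p.1.1 : ℕ) - 1/4, fun p => (p.1.1 : ℕ) + 1/4, fun p => ((p.1.2 : ℕ) : ℝ),
    ?_, ?_, ?_⟩
  · intro p
    have h : (((p.1.1 : Fin N) : ℕ) : ℝ) + 1 ≤ ((p.1.2 : Fin N) : ℕ) := by
      exact_mod_cast p.2
    constructor
    · dsimp only; linarith
    · dsimp only; linarith
  · intro p q h
    simp only [Prod.mk.injEq] at h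
    obtain ⟨h1, -, h3⟩ := h
    have e1 : ((p.1.1 : Fin N) : ℕ) = ((q.1.1 : Fin N) : ℕ) := by
      have : (((p.1.1 : Fin N) : ℕ) : ℝ) = ((q.1.1 : Fin N) : ℕ) := by linarith
      exact_mod_cast this
    have e2 : ((p.1.2 : Fin N) : ℕ) = ((q.1.2 : Fin N) : ℕ) := by exact_mod_cast h3
    exact Subtype.ext (Prod.ext (Fin.ext e1) (Fin.ext e2))
  · intro p q _
    have hp : (((p.1.1 : Fin N) : ℕ) : ℝ) + 1 ≤ ((p.1.2 : Fin N) : ℕ) := by
      exact_mod_cast p.2
    have hq : (((q.1.1 : Fin N) : ℕ) : ℝ) + 1 ≤ ((q.1.2 : Fin N) : ℕ) := by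
      exact_mod_cast q.2
    constructor
    · rintro (h | h)
      · left
        have e : (((p.1.2 : Fin N) : ℕ) : ℝ) = ((q.1.1 : Fin N) : ℕ) := by rw [h]
        dsimp only
        refine ⟨?_, ?_, ?_⟩ <;> linarith
      · right
        have e : (((q.1.2 : Fin N) : ℕ) : ℝ) = ((p.1.1 : Fin N) : ℕ) := by rw [h]
        dsimp only
        refine ⟨?_, ?_, ?_⟩ <;> linarith
    · rintro (⟨-, h1, h2⟩ | ⟨-, h1, h2⟩)
      · left
        exact Fin.ext (nat_close h1 h2)
      · right
        exact Fin.ext (nat_close h1 h2)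

lemma exists_bit {i j k : ℕ} (hij : i < j) (hj : j < 2 ^ k) :
    ∃ b : Fin k, j.testBit b = true ∧ i.testBit b = false := by
  by_contra hcon
  push Not at hcon
  have h : j &&& i = j := by
    apply Nat.eq_of_testBit_eq
    intro b
    rw [Nat.testBit_and]
    by_cases hb : b < k
    · by_cases h1 : j.testBit b = true
      · have := hcon ⟨b, hb⟩ h1
        simp only [Bool.not_eq_false] at this
        rw [h1, this]; rfl
      · simp only [Bool.not_eq_true] at h1
        rw [h1]; rfl
    · have h1 : j.testBit b = false := by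
        apply Nat.testBit_lt_two_pow
        exact lt_of_lt_of_le hj (Nat.pow_le_pow_right (by norm_num) (by omega))
      rw [h1]; rfl
  have := Nat.and_le_right (n := j) (m := i)
  omega

lemma shift_colorable {N k : ℕ} (h : N ≤ 2 ^ k) : (shift N).Colorable k := by
  have hex : ∀ p : SV N, ∃ b : Fin k, (p.1.2 : ℕ).testBit b = true ∧
      (p.1.1 : ℕ).testBit b = false := fun p =>
    exists_bit p.2 (lt_of_lt_of_le p.1.2.2 h)
  choose b hb using hex
  refine ⟨SimpleGraph.Coloring.mk b ?_⟩
  intro p q h hbb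
  rcases h with h | h
  · have h1 := (hb p).1
    have h2 := (hb q).2
    rw [h, hbb, h2] at h1
    exact absurd h1 (by decide)
  · have h1 := (hb q).1
    have h2 := (hb p).2
    rw [h, ← hbb, h2] at h1
    exact absurd h1 (by decide)

lemma le_of_shift_colorable {N k : ℕ} (h : (shift N).Colorable k) : N ≤ 2 ^ k := by
  classical
  obtain ⟨c⟩ := h
  let A : Fin N → Finset (Fin k) := fun i =>
    Finset.univ.filter (fun a => ∃ j, ∃ hij : i < j, c ⟨(i, j), hij⟩ = a)
  have hA : Function.Injective A := by
    have key : ∀ i j, i < j → A i ≠ A j := by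
      intro i j hij heq
      have h1 : c ⟨(i, j), hij⟩ ∈ A i := by
        simp only [A, Finset.mem_filter, Finset.mem_univ, true_and]
        exact ⟨j, hij, rfl⟩
      rw [heq] at h1
      simp only [A, Finset.mem_filter, Finset.mem_univ, true_and] at h1
      obtain ⟨l, hl, hc⟩ := h1
      exact c.valid (show (shift N).Adj ⟨(j, l), hl⟩ ⟨(i, j), hij⟩ from Or.inr rfl) hc
    intro i j h
    rcases lt_trichotomy i j with h1 | h1 | h1
    · exact absurd h (key i j h1)
    · exact h1
    · exact absurd h.symm (key j i h1)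
  have := Fintype.card_le_of_injective A hA
  simpa using this

/-- Every natural number is the chromatic number of a finite veto interval graph. -/
theorem result (k : ℕ) :
    ∃ (V : Type) (_ : Fintype V) (G : SimpleGraph V),
      IsVI G ∧ G.chromaticNumber = (k : ℕ∞) := by
  have key : ∀ N : ℕ, N ≤ 2 ^ k → (∀ j, j < k → 2 ^ j < N) →
      (shift N).chromaticNumber = (k : ℕ∞) := by
    intro N h1 h2
    apply le_antisymm
    · exact (shift_colorable h1).chromaticNumber_le
    · by_contra hlt
      rw [not_le] at hlt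
      cases k with
      | zero => simp at hlt
      | succ k =>
        have h3 : (shift N).chromaticNumber ≤ (k : ℕ∞) := by
          have : (shift N).chromaticNumber < (k : ℕ∞) + 1 := by exact_mod_cast hlt
          exact Order.le_of_lt_add_one this
        rw [SimpleGraph.chromaticNumber_le_iff_colorable] at h3
        have := le_of_shift_colorable h3
        have := h2 k (by omega)
        omega
  refine ⟨SV (2 ^ k), inferInstance, shift (2 ^ k), shift_isVI _, key _ le_rfl ?_⟩
  intro j hj
  exact Nat.pow_lt_pow_right (by norm_num) hj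

end Pool.Agent.Results.MP_2fc053_co.ShiftVeto
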